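import Pool.Agent.SSF.Stmts

set_option autoImplicit false

open Set Topology

namespace Pool.Agent.SSF.H76

open Pool.Agent.LSG Pool.Agent.LPR Pool.Agent.SSF

theorem uim : UimStmt := by
  refine ⟨?_, inferInstance⟩
  intro U hU hne
  obtain ⟨x, hx⟩ := hne
  obtain ⟨ε, hε, hball⟩ := Metric.isOpen_iff.mp hU x hx
  set δ : ℝ := min 1 ε / 2 with hδ
  have h0 : 0 < δ := by
    have : 0 < min 1 ε := lt_min one_pos hε
    rw [hδ]; linarith
  have h1 : δ < 1 := by
    have : min 1 ε ≤ 1 := min_le_left _ _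
    rw [hδ]; linarith
  have h2 : δ < ε := by
    have h3 : min 1 ε ≤ ε := min_le_right _ _
    rw [hδ]; linarith
  have hmem : ∀ u : unitInterval, (1 - δ) * (x : ℝ) + δ * (u : ℝ) ∈ unitInterval := by
    intro u
    have hx0 := x.2.1
    have hx1 := x.2.2
    have hu0 := u.2.1
    have hu1 := u.2.2
    constructor
    · have := mul_nonneg (sub_nonneg.mpr h1.le) hx0
      have := mul_nonneg h0.le hu0
      linarith
    · have := mul_le_mul_of_nonneg_left hx1 (sub_nonneg.mpr h1.le)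
      have := mul_le_mul_of_nonneg_left hu1 h0.le
      linarith
  refine ⟨fun u => ⟨(1 - δ) * (x : ℝ) + δ * (u : ℝ), hmem u⟩, ?_, ?_, ?_⟩
  · exact Continuous.subtype_mk (by fun_prop) _
  · intro u v huv
    have h3 : (1 - δ) * (x : ℝ) + δ * (u : ℝ) = (1 - δ) * (x : ℝ) + δ * (v : ℝ) :=
      congrArg Subtype.val huv
    have h4 : δ * (u : ℝ) = δ * (v : ℝ) := by linarith
    exact Subtype.ext (mul_left_cancel₀ h0.ne' h4)
  · intro u
    apply hball
    rw [Metric.mem_ball, Subtype.dist_eq, Real.dist_eq]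
    have hx0 := x.2.1
    have hx1 := x.2.2
    have hu0 := u.2.1
    have hu1 := u.2.2
    have h5 : (1 - δ) * (x : ℝ) + δ * (u : ℝ) - (x : ℝ) = δ * ((u : ℝ) - (x : ℝ)) := by ring
    change |(1 - δ) * (x : ℝ) + δ * (u : ℝ) - (x : ℝ)| < ε
    rw [h5, abs_mul, abs_of_pos h0]
    have h6 : |(u : ℝ) - (x : ℝ)| ≤ 1 := by
      rw [abs_le]; constructor <;> linarith
    have := mul_le_mul_of_nonneg_left h6 h0.le
    linarith

end Pool.Agent.SSF.H76
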